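import Pool.Agent.H44.Sch.Core

/-!
MP_f41f1b_an: for every exponent `1 < p < ∞`, `p ≠ 2`, there is an absolute contraction on the
Schatten class of exponent `p` without isometric dilation on any Schatten class of exponent `p`.
One and the same map works for all these exponents, namely
`T x = (1/2) (⟨b i, x b i⟩ + ⟨b j, x b j⟩) (E_i + E_j)` for two vectors `b i`, `b j` of a Hilbert
basis, with `E_i`, `E_j` the projections onto them.
-/

set_option autoImplicit false
open scoped NNReal ENNReal

namespace Pool.Agent.Results.MP_f41f1b_an.EveryExponent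

universe u v w z

section defs

variable {ι : Type u} {H : Type v} [NormedAddCommGroup H] [InnerProductSpace ℂ H] [CompleteSpace H]
variable {κ : Type w} {K : Type z} [NormedAddCommGroup K] [InnerProductSpace ℂ K] [CompleteSpace K]

/-- The trace of `|x| ^ p = (x* x) ^ (p / 2)`, computed in the Hilbert basis `b`: the `p`-th power
of the Schatten norm of exponent `p`, with the value `∞` outside the Schatten class. -/
noncomputable def schattenSum (b : HilbertBasis ι ℂ H) (p : ℝ) (x : H →L[ℂ] H) : ℝ≥0∞ :=
  ∑' i : ι, ENNReal.ofReal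
    (inner ℂ (b i) ((cfc (fun t : ℝ => t ^ (p / 2)) (star x * x)) (b i))).re

/-- The Schatten class of exponent `p`. -/
def schattenClass (b : HilbertBasis ι ℂ H) (p : ℝ) : Set (H →L[ℂ] H) :=
  {x | schattenSum b p x < ⊤}

/-- The map `f` is complex linear on the set `S`; its values outside `S` play no role. -/
def LinearOn (S : Set (H →L[ℂ] H)) (f : (H →L[ℂ] H) → (K →L[ℂ] K)) : Prop :=
  (∀ x ∈ S, ∀ y ∈ S, f (x + y) = f x + f y) ∧ ∀ (c : ℂ), ∀ x ∈ S, f (c • x) = c • f x

/-- `T` is a bounded operator on the Schatten class of exponent `p` which is a contraction for the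
trace norm and for the operator norm. -/
def AbsContraction (b : HilbertBasis ι ℂ H) (p : ℝ) (T : (H →L[ℂ] H) → (H →L[ℂ] H)) : Prop :=
  LinearOn (schattenClass b p) T ∧
  (∃ C : ℝ≥0, ∀ x ∈ schattenClass b p, schattenSum b p (T x) ≤ C * schattenSum b p x) ∧
  (∀ x ∈ schattenClass b 1, schattenSum b 1 (T x) ≤ schattenSum b 1 x) ∧
  (∀ x ∈ schattenClass b p, ‖T x‖ ≤ ‖x‖)

/-- `T`, a map of the Schatten class of exponent `p` over `H`, has an isometric dilation on the
Schatten class of exponent `p` over `K`: there are a linear isometry `J` of the first class into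
the second, a linear projection `P` of norm one of the second class onto the image of `J`, and a
linear isometry `U` of the second class into itself with `P U ^ n J = J T ^ n` for all `n ≥ 0`. -/
def HasIsometricDilation (b : HilbertBasis ι ℂ H) (c : HilbertBasis κ ℂ K) (p : ℝ)
    (T : (H →L[ℂ] H) → (H →L[ℂ] H)) : Prop :=
  ∃ (J : (H →L[ℂ] H) → (K →L[ℂ] K)) (P U : (K →L[ℂ] K) → (K →L[ℂ] K)),
    LinearOn (schattenClass b p) J ∧ LinearOn (schattenClass c p) P ∧
    LinearOn (schattenClass c p) U ∧
    (∀ x ∈ schattenClass b p, schattenSum c p (J x) = schattenSum b p x) ∧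
    (∀ y ∈ schattenClass c p, ∃ x ∈ schattenClass b p, P y = J x) ∧
    (∀ x ∈ schattenClass b p, P (J x) = J x) ∧
    (∀ y ∈ schattenClass c p, schattenSum c p (P y) ≤ schattenSum c p y) ∧
    (∀ y ∈ schattenClass c p, schattenSum c p (U y) = schattenSum c p y) ∧
    ∀ n : ℕ, ∀ x ∈ schattenClass b p, P (U^[n] (J x)) = J (T^[n] x)

end defs

open Pool.Agent.H44.Sch in
/-- Let `H` be a complex Hilbert space of dimension at least two, with Hilbert basis `b`. There is
a map `T` that is, for all `1 < p < ∞`, an absolute contraction of the Schatten class of exponent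
`p` over `H`, and that has, for `p ≠ 2`, no isometric dilation on the Schatten class of exponent
`p` over any Hilbert space `K`. -/
theorem result {ι : Type u} {H : Type v} [NormedAddCommGroup H] [InnerProductSpace ℂ H]
    [CompleteSpace H] (b : HilbertBasis ι ℂ H) (hι : Nontrivial ι) :
    ∃ T : (H →L[ℂ] H) → (H →L[ℂ] H), ∀ p : ℝ, 1 < p →
      AbsContraction b p T ∧
      (p ≠ 2 → ∀ (κ : Type w) (K : Type z) [NormedAddCommGroup K] [InnerProductSpace ℂ K]
        [CompleteSpace K] (c : HilbertBasis κ ℂ K), ¬ HasIsometricDilation b c p T) := by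
  obtain ⟨i, j, hij⟩ := exists_pair_ne ι
  refine ⟨av b i j, fun p hp => ⟨⟨⟨?_, ?_⟩, ⟨1, ?_⟩, ?_, ?_⟩, ?_⟩⟩
  · intro x _ y _
    exact map_add _ _ _
  · intro c x _
    exact map_smul _ _ _
  · intro x _
    rw [ENNReal.coe_one, one_mul]
    exact Qp_av_le b i j hij hp.le x
  · intro x _
    exact Qp_av_le b i j hij le_rfl x
  · intro x _
    exact norm_av_le b i j hij x
  · intro hp2 κ K _ _ _ c
    rintro ⟨J, P, U, ⟨hJa, hJs⟩, ⟨hPa, hPs⟩, ⟨hUa, hUs⟩, hJ, -, hPJ, hP, hU, hdil⟩
    have hp0 : 0 < p := by linarith
    -- the two Schatten classes as subspaces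
    let M : Submodule ℂ (H →L[ℂ] H) :=
      { carrier := schattenClass b p
        add_mem' := fun hx hy => Qp_add_lt_top b hp.le hx hy
        zero_mem' := by
          change Qp b p (0 : H →L[ℂ] H) < ⊤
          rw [Qp_zero b hp0]; exact ENNReal.zero_lt_top
        smul_mem' := fun a x hx => Qp_smul_lt_top b hp.le a hx }
    let N : Submodule ℂ (K →L[ℂ] K) :=
      { carrier := schattenClass c p
        add_mem' := fun hx hy => Qp_add_lt_top c hp.le hx hy
        zero_mem' := by
          change Qp c p (0 : K →L[ℂ] K) < ⊤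
          rw [Qp_zero c hp0]; exact ENNReal.zero_lt_top
        smul_mem' := fun a x hx => Qp_smul_lt_top c hp.le a hx }
    have hTm : ∀ x : H →L[ℂ] H, x ∈ schattenClass b p → av b i j x ∈ schattenClass b p :=
      fun x hx => lt_of_le_of_lt (Qp_av_le b i j hij hp.le x) hx
    have hJm : ∀ x ∈ schattenClass b p, J x ∈ schattenClass c p := by
      intro x hx
      change schattenSum c p (J x) < ⊤
      rw [hJ x hx]
      exact hx
    have hPm : ∀ y ∈ schattenClass c p, P y ∈ schattenClass c p :=
      fun y hy => lt_of_le_of_lt (hP y hy) hy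
    have hUm : ∀ y ∈ schattenClass c p, U y ∈ schattenClass c p := by
      intro y hy
      change schattenSum c p (U y) < ⊤
      rw [hU y hy]
      exact hy
    let T' : M →ₗ[ℂ] M :=
      { toFun := fun x => ⟨av b i j x, hTm x x.2⟩
        map_add' := fun x y => Subtype.ext (map_add (av b i j) (x : H →L[ℂ] H) y)
        map_smul' := fun a x => Subtype.ext (map_smul (av b i j) a (x : H →L[ℂ] H)) }
    let J' : M →ₗ[ℂ] N :=
      { toFun := fun x => ⟨J x, hJm x x.2⟩
        map_add' := fun x y => Subtype.ext (hJa x x.2 y y.2)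
        map_smul' := fun a x => Subtype.ext (hJs a x x.2) }
    let P' : N →ₗ[ℂ] N :=
      { toFun := fun x => ⟨P x, hPm x x.2⟩
        map_add' := fun x y => Subtype.ext (hPa x x.2 y y.2)
        map_smul' := fun a x => Subtype.ext (hPs a x x.2) }
    let U' : N →ₗ[ℂ] N :=
      { toFun := fun x => ⟨U x, hUm x x.2⟩
        map_add' := fun x y => Subtype.ext (hUa x x.2 y y.2)
        map_smul' := fun a x => Subtype.ext (hUs a x x.2) }
    have hUi : ∀ (n : ℕ) (y : N), (((U' ^ n) y : N) : K →L[ℂ] K) = U^[n] y := by
      intro n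
      induction n with
      | zero => intro y; rfl
      | succ n ih =>
        intro y
        rw [pow_succ', Module.End.mul_apply, Function.iterate_succ_apply', ← ih]
        rfl
    have hTi : ∀ (n : ℕ) (x : M), (((T' ^ n) x : M) : H →L[ℂ] H) = (av b i j)^[n] x := by
      intro n
      induction n with
      | zero => intro y; rfl
      | succ n ih =>
        intro y
        rw [pow_succ', Module.End.mul_apply, Function.iterate_succ_apply', ← ih]
        rfl
    refine core hp hp2 b c hij M N (fun x => Iff.rfl) (fun y => Iff.rfl) T' (fun x => rfl)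
      J' P' U' (fun x => hJ x x.2) (fun x => Subtype.ext (hPJ x x.2)) (fun y => hP y y.2)
      (fun y => hU y y.2) ?_
    intro n x
    apply Subtype.ext
    change P (((U' ^ n) (J' x) : N) : K →L[ℂ] K) = J (((T' ^ n) x : M) : H →L[ℂ] H)
    rw [hUi, hTi]
    exact hdil n x x.2

end Pool.Agent.Results.MP_f41f1b_an.EveryExponent
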